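import Pool.Agent.H89.MirrorDefs

set_option linter.unusedTactic false
set_option linter.unreachableTactic false
set_option linter.unnecessarySeqFocus false

open scoped Pointwise
open Pool.Agent.H89.Mirror

namespace Pool.Agent.Results.MP_3570a5_nt.NegativeCoefficient

/-- two groups, of sizes `3` and `2` -/
abbrev q : Fin 2 → ℕ := ![3, 2]

/-- `v_11 = e_1`, `v_12 = e_2`, `v_13 = -e_1-e_2`, `v_21 = e_3`, `v_22 = e_1+e_2-e_3`. -/
def v : Idx q → Fin 3 → ℤ
  | ⟨0, j⟩ => (![![1, 0, 0], ![0, 1, 0], ![-1, -1, 0]] : Fin 3 → Fin 3 → ℤ) j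
  | ⟨1, j⟩ => (![![0, 0, 1], ![1, 1, -1]] : Fin 2 → Fin 3 → ℤ) j

def i00 : Idx q := ⟨0, (0 : Fin 3)⟩
def i01 : Idx q := ⟨0, (1 : Fin 3)⟩
def i02 : Idx q := ⟨0, (2 : Fin 3)⟩
def i10 : Idx q := ⟨1, (0 : Fin 2)⟩
def i11 : Idx q := ⟨1, (1 : Fin 2)⟩

lemma sum_idx {M : Type*} [AddCommMonoid M] (f : Idx q → M) :
    ∑ ij, f ij = (f i00 + f i01 + f i02) + (f i10 + f i11) := by
  rw [Fintype.sum_sigma, Fin.sum_univ_two]
  have h0 : ∑ j : Fin (q 0), f ⟨0, j⟩ = f i00 + f i01 + f i02 :=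
    Fin.sum_univ_three (fun j : Fin 3 => f ⟨0, j⟩)
  have h1 : ∑ j : Fin (q 1), f ⟨1, j⟩ = f i10 + f i11 :=
    Fin.sum_univ_two (fun j : Fin 2 => f ⟨1, j⟩)
  rw [h0, h1]

lemma forall_idx {P : Idx q → Prop} (h00 : P i00) (h01 : P i01) (h02 : P i02) (h10 : P i10)
    (h11 : P i11) : ∀ ij, P ij := by
  rintro ⟨i, j⟩
  fin_cases i
  · change Fin 3 at j
    fin_cases j
    · exact h00
    · exact h01
    · exact h02
  · change Fin 2 at j
    fin_cases j
    · exact h10
    · exact h11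

/-- the exponent vector `(a, a, a+b, b, b)` -/
noncomputable def kap (a b : ℕ) : Idx q →₀ ℕ :=
  Finsupp.equivFunOnFinite.symm (fun ij => match ij with
    | ⟨0, j⟩ => (![a, a, a + b] : Fin 3 → ℕ) j
    | ⟨1, _⟩ => b)

@[simp] lemma kap00 (a b : ℕ) : kap a b i00 = a := rfl
@[simp] lemma kap01 (a b : ℕ) : kap a b i01 = a := rfl
@[simp] lemma kap02 (a b : ℕ) : kap a b i02 = a + b := rfl
@[simp] lemma kap10 (a b : ℕ) : kap a b i10 = b := rfl
@[simp] lemma kap11 (a b : ℕ) : kap a b i11 = b := rfl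

lemma v00 : v i00 = ![1, 0, 0] := rfl
lemma v01 : v i01 = ![0, 1, 0] := rfl
lemma v02 : v i02 = ![-1, -1, 0] := rfl
lemma v10 : v i10 = ![0, 0, 1] := rfl
lemma v11 : v i11 = ![1, 1, -1] := rfl

lemma Vsum_eq (k : Idx q →₀ ℕ) : Vsum v k =
    ![(k i00 : ℤ) - k i02 + k i11, (k i01 : ℤ) - k i02 + k i11, (k i10 : ℤ) - k i11] := by
  unfold Vsum
  rw [sum_idx, v00, v01, v02, v10, v11]
  ext t
  fin_cases t <;> simp <;> ring

lemma Vsum_eq_zero_iff (k : Idx q →₀ ℕ) : Vsum v k = 0 ↔ k = kap (k i00) (k i10) := by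
  rw [Vsum_eq]
  constructor
  · intro h
    have h0 := congrFun h 0
    have h1 := congrFun h 1
    have h2 := congrFun h 2
    simp at h0 h1 h2
    apply Finsupp.ext
    apply forall_idx
    · rfl
    · simp; omega
    · simp; omega
    · rfl
    · simp; omega
  · intro h
    rw [h]
    ext t
    fin_cases t <;> simp

lemma Vsum_kap (a b : ℕ) : Vsum v (kap a b) = 0 := by
  rw [Vsum_eq_zero_iff]; simp

/-- value of `C` on `kap a b` -/
def cc (a b : ℕ) : ℕ :=
  (Nat.factorial (a + a + (a + b)) / (Nat.factorial a * Nat.factorial a * Nat.factorial (a + b))) *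
  (Nat.factorial (b + b) / (Nat.factorial b * Nat.factorial b))

lemma C_kap (a b : ℕ) : C (kap a b) = cc a b := by
  unfold C cc
  rw [Fin.prod_univ_two]
  unfold Nat.multinomial
  have hs0 : ∑ j : Fin (q 0), kap a b ⟨0, j⟩ = a + a + (a + b) :=
    Fin.sum_univ_three (fun j : Fin 3 => kap a b ⟨0, j⟩)
  have hs1 : ∑ j : Fin (q 1), kap a b ⟨1, j⟩ = b + b :=
    Fin.sum_univ_two (fun j : Fin 2 => kap a b ⟨1, j⟩)
  have hp0 : ∏ j : Fin (q 0), Nat.factorial (kap a b ⟨0, j⟩) =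
      Nat.factorial a * Nat.factorial a * Nat.factorial (a + b) :=
    Fin.prod_univ_three (fun j : Fin 3 => Nat.factorial (kap a b ⟨0, j⟩))
  have hp1 : ∏ j : Fin (q 1), Nat.factorial (kap a b ⟨1, j⟩) =
      Nat.factorial b * Nat.factorial b :=
    Fin.prod_univ_two (fun j : Fin 2 => Nat.factorial (kap a b ⟨1, j⟩))
  rw [hs0, hs1, hp0, hp1]

lemma coeff_phi0_kap (a b : ℕ) : MvPowerSeries.coeff (kap a b) (phi0 v) = (cc a b : ℚ) := by
  change (if Vsum v (kap a b) = 0 then (C (kap a b) : ℚ) else 0) = _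
  rw [if_pos (Vsum_kap a b), C_kap]

lemma coeff_phi_kap (a b : ℕ) : MvPowerSeries.coeff (kap a b) (phi v i00) =
    (cc a b : ℚ) * (harmonic (a + a + (a + b)) - harmonic a) := by
  have hs0 : ∑ j : Fin (q 0), kap a b ⟨0, j⟩ = a + a + (a + b) :=
    Fin.sum_univ_three (fun j : Fin 3 => kap a b ⟨0, j⟩)
  change (if Vsum v (kap a b) = 0 then
    (C (kap a b) : ℚ) * (harmonic (∑ m : Fin (q 0), kap a b ⟨0, m⟩) - harmonic (kap a b i00)) else 0) = _
  rw [if_pos (Vsum_kap a b), C_kap, hs0, kap00]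

lemma kap_add (a b a' b' : ℕ) : kap a b + kap a' b' = kap (a + a') (b + b') := by
  apply Finsupp.ext
  apply forall_idx
  · simp
  · simp
  · simp; omega
  · simp
  · simp

lemma kap_injective {a b a' b' : ℕ} (h : kap a b = kap a' b') : a = a' ∧ b = b' := by
  have h0 := DFunLike.congr_fun h i00
  have h1 := DFunLike.congr_fun h i10
  simp at h0 h1
  exact ⟨h0, h1⟩

lemma coeff_mul_phi0 (X : MvPowerSeries (Idx q) ℚ) (a b : ℕ) :
    MvPowerSeries.coeff (kap a b) (X * phi0 v) =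
      ∑ ij ∈ Finset.range (a + 1) ×ˢ Finset.range (b + 1),
        MvPowerSeries.coeff (kap (a - ij.1) (b - ij.2)) X * (cc ij.1 ij.2 : ℚ) := by
  classical
  rw [MvPowerSeries.coeff_mul]
  symm
  apply Finset.sum_bij_ne_zero (fun ij _ _ => (kap (a - ij.1) (b - ij.2), kap ij.1 ij.2))
  · intro ij hij _
    have h1 := Finset.mem_range.mp (Finset.mem_product.mp hij).1
    have h2 := Finset.mem_range.mp (Finset.mem_product.mp hij).2
    refine Finset.HasAntidiagonal.mem_antidiagonal.mpr ?_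
    change kap (a - ij.1) (b - ij.2) + kap ij.1 ij.2 = _
    rw [kap_add]
    congr 1 <;> omega
  · intro ij hij _ ij' hij' _ h
    obtain ⟨h1, h2⟩ := kap_injective (congrArg Prod.snd h)
    exact Prod.ext h1 h2
  · rintro ⟨m, n⟩ hmn hne
    replace hmn : m + n = kap a b := Finset.HasAntidiagonal.mem_antidiagonal.mp hmn
    replace hne : MvPowerSeries.coeff m X * MvPowerSeries.coeff n (phi0 v) ≠ 0 := hne
    have hn : Vsum v n = 0 := by
      by_contra hn
      apply hne
      have : MvPowerSeries.coeff n (phi0 v) = 0 := by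
        change (if Vsum v n = 0 then (C n : ℚ) else 0) = _
        rw [if_neg hn]
      rw [this, mul_zero]
    rw [Vsum_eq_zero_iff] at hn
    have e0 := DFunLike.congr_fun hmn i00
    have e1 := DFunLike.congr_fun hmn i01
    have e2 := DFunLike.congr_fun hmn i02
    have e3 := DFunLike.congr_fun hmn i10
    have e4 := DFunLike.congr_fun hmn i11
    have n1 : n i01 = n i00 := by conv_lhs => rw [hn]
                                  simp
    have n2 : n i02 = n i00 + n i10 := by conv_lhs => rw [hn]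
                                          simp
    have n4 : n i11 = n i10 := by conv_lhs => rw [hn]
                                  simp
    simp only [Finsupp.add_apply, kap00, kap01, kap02, kap10, kap11] at e0 e1 e2 e3 e4
    have hm : m = kap (a - n i00) (b - n i10) := by
      apply Finsupp.ext
      apply forall_idx
      · simp; omega
      · simp; omega
      · simp; omega
      · simp; omega
      · simp; omega
    refine ⟨(n i00, n i10), ?_, ?_, ?_⟩
    · simp only [Finset.mem_product, Finset.mem_range]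
      omega
    · rw [← hm, ← coeff_phi0_kap, ← hn]
      exact hne
    · rw [← hm, ← hn]
  · intro ij hij hne
    rw [coeff_phi0_kap]

lemma constantCoeff_phi0 : MvPowerSeries.constantCoeff (phi0 v) ≠ 0 := by
  have h : kap 0 0 = 0 := by
    apply Finsupp.ext
    apply forall_idx <;> simp
  have := coeff_phi0_kap 0 0
  rw [h] at this
  rw [← MvPowerSeries.coeff_zero_eq_constantCoeff_apply, this]
  norm_num [cc]

lemma logPsi_mul : logPsi v i00 * phi0 v = phi v i00 := by
  unfold logPsi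
  rw [mul_assoc, MvPowerSeries.inv_mul_cancel _ constantCoeff_phi0, mul_one]

lemma rec_eq (a b : ℕ) :
    ∑ ij ∈ Finset.range (a + 1) ×ˢ Finset.range (b + 1),
        MvPowerSeries.coeff (kap (a - ij.1) (b - ij.2)) (logPsi v i00) * (cc ij.1 ij.2 : ℚ) =
      (cc a b : ℚ) * (harmonic (a + a + (a + b)) - harmonic a) := by
  rw [← coeff_mul_phi0, logPsi_mul, coeff_phi_kap]

lemma value : MvPowerSeries.coeff (kap 4 1) (logPsi v i00) = -1200 := by
  have c00 : cc 0 0 = 1 := by decide +kernel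
  have c10 : cc 1 0 = 6 := by decide +kernel
  have c20 : cc 2 0 = 90 := by decide +kernel
  have c30 : cc 3 0 = 1680 := by decide +kernel
  have c40 : cc 4 0 = 34650 := by decide +kernel
  have c01 : cc 0 1 = 2 := by decide +kernel
  have c11 : cc 1 1 = 24 := by decide +kernel
  have c21 : cc 2 1 = 420 := by decide +kernel
  have c31 : cc 3 1 = 8400 := by decide +kernel
  have c41 : cc 4 1 = 180180 := by decide +kernel
  have e00 := rec_eq 0 0
  have e10 := rec_eq 1 0
  have e20 := rec_eq 2 0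
  have e30 := rec_eq 3 0
  have e40 := rec_eq 4 0
  have e01 := rec_eq 0 1
  have e11 := rec_eq 1 1
  have e21 := rec_eq 2 1
  have e31 := rec_eq 3 1
  have e41 := rec_eq 4 1
  simp only [Finset.sum_product, Finset.sum_range_succ, Finset.sum_range_zero, zero_add,
    c00, c10, c20, c30, c40, c01, c11, c21, c31, c41, harmonic] at e00 e10 e20 e30 e40 e01 e11 e21 e31 e41
  norm_num at e00 e10 e20 e30 e40 e01 e11 e21 e31 e41
  linarith

/-! ### The polytopes -/

lemma Delta_eq : Delta v = polytope v 0 + polytope v 1 := by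
  unfold Delta
  rw [Fin.sum_univ_two]

lemma mem_poly0 {x : Fin 3 → ℝ} (h2 : x 2 = 0) (h0 : -(1 / 4) ≤ x 0) (h1 : -(1 / 4) ≤ x 1)
    (h01 : x 0 + x 1 ≤ 1 / 4) : x ∈ polytope v 0 := by
  unfold polytope
  set S : Set (Fin 3 → ℝ) :=
    insert 0 (Set.range fun (j : Fin (q 0)) (t : Fin 3) => (v ⟨0, j⟩ t : ℝ)) with hS
  have m0 : (0 : Fin 3 → ℝ) ∈ S := Set.mem_insert _ _
  have m1 : (![1, 0, 0] : Fin 3 → ℝ) ∈ S := by
    right
    refine ⟨(0 : Fin 3), ?_⟩
    ext t
    change (v i00 t : ℝ) = _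
    rw [v00]
    fin_cases t <;> simp
  have m2 : (![0, 1, 0] : Fin 3 → ℝ) ∈ S := by
    right
    refine ⟨(1 : Fin 3), ?_⟩
    ext t
    change (v i01 t : ℝ) = _
    rw [v01]
    fin_cases t <;> simp
  have m3 : (![-1, -1, 0] : Fin 3 → ℝ) ∈ S := by
    right
    refine ⟨(2 : Fin 3), ?_⟩
    ext t
    change (v i02 t : ℝ) = _
    rw [v02]
    fin_cases t <;> simp
  have key := (convex_convexHull ℝ S).sum_mem (t := (Finset.univ : Finset (Fin 4)))
    (w := ![x 0 + 1 / 4, x 1 + 1 / 4, 1 / 4, 1 / 4 - x 0 - x 1])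
    (z := ![![1, 0, 0], ![0, 1, 0], ![-1, -1, 0], 0]) ?_ ?_ ?_
  · convert key using 1
    rw [Fin.sum_univ_four]
    ext t
    fin_cases t <;> simp [h2]
  · intro i _
    fin_cases i <;> simp <;> linarith
  · rw [Fin.sum_univ_four]
    simp
    ring
  · intro i _
    apply subset_convexHull ℝ S
    fin_cases i
    · exact m1
    · exact m2
    · exact m3
    · exact m0

lemma smul_mem_poly1 {c : ℝ} (h0 : 0 ≤ c) (h1 : c ≤ 1) {y : Fin 3 → ℝ}
    (hy : y ∈ polytope v 1) : c • y ∈ polytope v 1 := by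
  unfold polytope at *
  have hz : (0 : Fin 3 → ℝ) ∈ convexHull ℝ
      (insert 0 (Set.range fun (j : Fin (q 1)) (t : Fin 3) => (v ⟨1, j⟩ t : ℝ))) :=
    subset_convexHull ℝ _ (Set.mem_insert _ _)
  exact (convex_convexHull ℝ _).smul_mem_of_zero_mem hz hy ⟨h0, h1⟩

lemma mem_poly1_a : (![0, 0, 1] : Fin 3 → ℝ) ∈ polytope v 1 := by
  unfold polytope
  apply subset_convexHull ℝ _
  right
  refine ⟨(0 : Fin 2), ?_⟩
  ext t
  change (v i10 t : ℝ) = _
  rw [v10]
  fin_cases t <;> simp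

lemma mem_poly1_b : (![1, 1, -1] : Fin 3 → ℝ) ∈ polytope v 1 := by
  unfold polytope
  apply subset_convexHull ℝ _
  right
  refine ⟨(1 : Fin 2), ?_⟩
  ext t
  change (v i11 t : ℝ) = _
  rw [v11]
  fin_cases t <;> simp

lemma mem_Delta {x : Fin 3 → ℝ} (h : ∀ t, |x t| ≤ 1 / 16) : x ∈ Delta v := by
  rw [Delta_eq]
  have a0 := abs_le.mp (h 0)
  have a1 := abs_le.mp (h 1)
  have a2 := abs_le.mp (h 2)
  rcases le_total 0 (x 2) with hx | hx
  · refine Set.mem_add.mpr ⟨![x 0, x 1, 0], ?_, x 2 • ![0, 0, 1], ?_, ?_⟩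
    · apply mem_poly0 <;> simp <;> linarith
    · exact smul_mem_poly1 hx (by linarith) mem_poly1_a
    · ext t
      fin_cases t <;> simp
  · refine Set.mem_add.mpr ⟨![x 0 + x 2, x 1 + x 2, 0], ?_, (-x 2) • ![1, 1, -1], ?_, ?_⟩
    · apply mem_poly0 <;> simp <;> linarith
    · exact smul_mem_poly1 (by linarith) (by linarith) mem_poly1_b
    · ext t
      fin_cases t <;> simp

lemma zero_mem_interior : (0 : Fin 3 → ℝ) ∈ interior (Delta v) := by
  rw [mem_interior_iff_mem_nhds, Metric.mem_nhds_iff]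
  refine ⟨1 / 16, by norm_num, ?_⟩
  intro x hx
  apply mem_Delta
  intro t
  rw [mem_ball_zero_iff] at hx
  have := norm_le_pi_norm x t
  rw [Real.norm_eq_abs] at this
  linarith

/-- a linear form -/
def lin (a : Fin 3 → ℝ) : (Fin 3 → ℝ) →ₗ[ℝ] ℝ where
  toFun x := a 0 * x 0 + a 1 * x 1 + a 2 * x 2
  map_add' x y := by simp; ring
  map_smul' c x := by simp; ring

lemma lin_apply (a x : Fin 3 → ℝ) : lin a x = a 0 * x 0 + a 1 * x 1 + a 2 * x 2 := rfl

lemma lin_le_poly0 (a : Fin 3 → ℝ) (c0 : ℝ) (h0 : 0 ≤ c0)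
    (h00 : a 0 ≤ c0) (h01 : a 1 ≤ c0) (h02 : - a 0 - a 1 ≤ c0) {y : Fin 3 → ℝ}
    (hy : y ∈ polytope v 0) : lin a y ≤ c0 := by
  have : polytope v 0 ⊆ {x | lin a x ≤ c0} := by
    unfold polytope
    apply convexHull_min _ (convex_halfSpace_le (lin a).isLinear c0)
    rintro w (rfl | ⟨j, rfl⟩)
    · simpa using h0
    · change Fin 3 at j
      change lin a (fun t => (v ⟨0, j⟩ t : ℝ)) ≤ c0
      fin_cases j
      · change lin a (fun t => (v i00 t : ℝ)) ≤ c0
        rw [v00, lin_apply]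
        simpa using h00
      · change lin a (fun t => (v i01 t : ℝ)) ≤ c0
        rw [v01, lin_apply]
        simpa using h01
      · change lin a (fun t => (v i02 t : ℝ)) ≤ c0
        rw [v02, lin_apply]
        simp
        linarith
  exact this hy

lemma lin_le_poly1 (a : Fin 3 → ℝ) (c1 : ℝ) (h1 : 0 ≤ c1)
    (h10 : a 2 ≤ c1) (h11 : a 0 + a 1 - a 2 ≤ c1) {y : Fin 3 → ℝ}
    (hy : y ∈ polytope v 1) : lin a y ≤ c1 := by
  have : polytope v 1 ⊆ {x | lin a x ≤ c1} := by
    unfold polytope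
    apply convexHull_min _ (convex_halfSpace_le (lin a).isLinear c1)
    rintro w (rfl | ⟨j, rfl⟩)
    · simpa using h1
    · change Fin 2 at j
      change lin a (fun t => (v ⟨1, j⟩ t : ℝ)) ≤ c1
      fin_cases j
      · change lin a (fun t => (v i10 t : ℝ)) ≤ c1
        rw [v10, lin_apply]
        simpa using h10
      · change lin a (fun t => (v i11 t : ℝ)) ≤ c1
        rw [v11, lin_apply]
        simp
        linarith
  exact this hy

lemma lin_le_Delta (a : Fin 3 → ℝ) (c0 c1 : ℝ) (h0 : 0 ≤ c0) (h1 : 0 ≤ c1)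
    (h00 : a 0 ≤ c0) (h01 : a 1 ≤ c0) (h02 : - a 0 - a 1 ≤ c0)
    (h10 : a 2 ≤ c1) (h11 : a 0 + a 1 - a 2 ≤ c1) {x : Fin 3 → ℝ} (hx : x ∈ Delta v) :
    lin a x ≤ c0 + c1 := by
  rw [Delta_eq] at hx
  obtain ⟨y, hy, z, hz, rfl⟩ := Set.mem_add.mp hx
  rw [map_add]
  exact add_le_add (lin_le_poly0 a c0 h0 h00 h01 h02 hy) (lin_le_poly1 a c1 h1 h10 h11 hz)

lemma lin_lt_interior (a : Fin 3 → ℝ) (c : ℝ) (ha : 0 < lin a a) (ha' : ∀ t, |a t| ≤ 1)
    (h : ∀ x ∈ Delta v, lin a x ≤ c) {x : Fin 3 → ℝ} (hx : x ∈ interior (Delta v)) :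
    lin a x < c := by
  rw [mem_interior_iff_mem_nhds, Metric.mem_nhds_iff] at hx
  obtain ⟨ε, hε, hball⟩ := hx
  have hmem : x + (ε / 2) • a ∈ Metric.ball x ε := by
    rw [mem_ball_iff_norm, add_sub_cancel_left, norm_smul, Real.norm_eq_abs, abs_of_pos (by linarith)]
    have : ‖a‖ ≤ 1 := by
      rw [pi_norm_le_iff_of_nonneg (by norm_num)]
      intro t
      rw [Real.norm_eq_abs]
      exact ha' t
    nlinarith
  have := h _ (hball hmem)
  rw [map_add, map_smul, smul_eq_mul] at this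
  nlinarith [mul_pos (half_pos hε) ha]

lemma fano : Fano v := by
  intro m hm
  have b1 := lin_lt_interior ![0, 0, 1] 1 (by simp [lin_apply] <;> norm_num)
    (by intro t; fin_cases t <;> simp)
    (fun x hx => by
      have := lin_le_Delta ![0, 0, 1] 0 1 (by simp <;> norm_num) (by simp <;> norm_num) (by simp <;> norm_num) (by simp <;> norm_num)
        (by simp <;> norm_num) (by simp <;> norm_num) (by simp <;> norm_num) hx
      linarith) hm
  have b2 := lin_lt_interior ![0, 0, -1] 1 (by simp [lin_apply] <;> norm_num)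
    (by intro t; fin_cases t <;> simp)
    (fun x hx => by
      have := lin_le_Delta ![0, 0, -1] 0 1 (by simp <;> norm_num) (by simp <;> norm_num) (by simp <;> norm_num) (by simp <;> norm_num)
        (by simp <;> norm_num) (by simp <;> norm_num) (by simp <;> norm_num) hx
      linarith) hm
  have b3 := lin_lt_interior ![1, -1, 0] 1 (by simp [lin_apply] <;> norm_num)
    (by intro t; fin_cases t <;> simp)
    (fun x hx => by
      have := lin_le_Delta ![1, -1, 0] 1 0 (by simp <;> norm_num) (by simp <;> norm_num) (by simp <;> norm_num) (by simp <;> norm_num)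
        (by simp <;> norm_num) (by simp <;> norm_num) (by simp <;> norm_num) hx
      linarith) hm
  have b4 := lin_lt_interior ![-1, 1, 0] 1 (by simp [lin_apply] <;> norm_num)
    (by intro t; fin_cases t <;> simp)
    (fun x hx => by
      have := lin_le_Delta ![-1, 1, 0] 1 0 (by simp <;> norm_num) (by simp <;> norm_num) (by simp <;> norm_num) (by simp <;> norm_num)
        (by simp <;> norm_num) (by simp <;> norm_num) (by simp <;> norm_num) hx
      linarith) hm
  have b5 := lin_lt_interior ![1, 1, 1] 2 (by simp [lin_apply] <;> norm_num)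
    (by intro t; fin_cases t <;> simp)
    (fun x hx => by
      have := lin_le_Delta ![1, 1, 1] 1 1 (by simp <;> norm_num) (by simp <;> norm_num) (by simp <;> norm_num) (by simp <;> norm_num)
        (by simp <;> norm_num) (by simp <;> norm_num) (by simp <;> norm_num) hx
      linarith) hm
  have b6 := lin_lt_interior ![-1, -1, -1] 2 (by simp [lin_apply] <;> norm_num)
    (by intro t; fin_cases t <;> simp)
    (fun x hx => by
      have := lin_le_Delta ![-1, -1, -1] 2 0 (by simp <;> norm_num) (by simp <;> norm_num) (by simp <;> norm_num)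
        (by simp <;> norm_num) (by simp <;> norm_num) (by simp <;> norm_num) (by simp <;> norm_num) hx
      linarith) hm
  simp only [lin_apply] at b1 b2 b3 b4 b5 b6
  have c1 : (m 2 : ℝ) < ((1 : ℤ) : ℝ) := by
    simpa using b1
  have c2 : ((-(m 2) : ℤ) : ℝ) < ((1 : ℤ) : ℝ) := by
    simpa using b2
  have c3 : ((m 0 - m 1 : ℤ) : ℝ) < ((1 : ℤ) : ℝ) := by
    push_cast
    simp at b3
    linarith
  have c4 : ((m 1 - m 0 : ℤ) : ℝ) < ((1 : ℤ) : ℝ) := by
    push_cast
    simp at b4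
    linarith
  have c5 : ((m 0 + m 1 + m 2 : ℤ) : ℝ) < ((2 : ℤ) : ℝ) := by
    push_cast
    simp at b5
    linarith
  have c6 : ((-(m 0) - m 1 - m 2 : ℤ) : ℝ) < ((2 : ℤ) : ℝ) := by
    push_cast
    simp at b6
    linarith
  rw [Int.cast_lt] at c1 c2 c3 c4 c5 c6
  ext t
  fin_cases t <;> simp <;> omega

lemma span_eq : Submodule.span ℤ (Set.range v) = ⊤ := by
  rw [eq_top_iff]
  intro x _
  have hx : x = x 0 • v i00 + x 1 • v i01 + x 2 • v i10 := by
    rw [v00, v01, v10]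
    ext t
    fin_cases t <;> simp
  rw [hx]
  refine Submodule.add_mem _ (Submodule.add_mem _ ?_ ?_) ?_ <;>
    exact Submodule.smul_mem _ _ (Submodule.subset_span ⟨_, rfl⟩)

lemma lattice0 (m : Fin 3 → ℤ) (hm : (fun t => (m t : ℝ)) ∈ polytope v 0) :
    m = 0 ∨ ∃ j, v ⟨0, j⟩ = m := by
  have b1 := lin_le_poly0 ![0, 0, 1] 0 (by simp <;> norm_num) (by simp <;> norm_num)
    (by simp <;> norm_num) (by simp <;> norm_num) hm
  have b2 := lin_le_poly0 ![0, 0, -1] 0 (by simp <;> norm_num) (by simp <;> norm_num)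
    (by simp <;> norm_num) (by simp <;> norm_num) hm
  have b3 := lin_le_poly0 ![1, 1, 0] 1 (by simp <;> norm_num) (by simp <;> norm_num)
    (by simp <;> norm_num) (by simp <;> norm_num) hm
  have b4 := lin_le_poly0 ![1, -2, 0] 1 (by simp <;> norm_num) (by simp <;> norm_num)
    (by simp <;> norm_num) (by simp <;> norm_num) hm
  have b5 := lin_le_poly0 ![-2, 1, 0] 1 (by simp <;> norm_num) (by simp <;> norm_num)
    (by simp <;> norm_num) (by simp <;> norm_num) hm
  simp only [lin_apply] at b1 b2 b3 b4 b5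
  have c1 : (m 2 : ℝ) ≤ ((0 : ℤ) : ℝ) := by
    simpa using b1
  have c2 : ((-(m 2) : ℤ) : ℝ) ≤ ((0 : ℤ) : ℝ) := by
    simpa using b2
  have c3 : ((m 0 + m 1 : ℤ) : ℝ) ≤ ((1 : ℤ) : ℝ) := by
    push_cast
    simp at b3
    linarith
  have c4 : ((m 0 - 2 * m 1 : ℤ) : ℝ) ≤ ((1 : ℤ) : ℝ) := by
    push_cast
    simp at b4
    linarith
  have c5 : ((m 1 - 2 * m 0 : ℤ) : ℝ) ≤ ((1 : ℤ) : ℝ) := by
    push_cast
    simp at b5
    linarith
  rw [Int.cast_le] at c1 c2 c3 c4 c5
  have key : (m 0 = 0 ∧ m 1 = 0) ∨ (m 0 = 1 ∧ m 1 = 0) ∨ (m 0 = 0 ∧ m 1 = 1) ∨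
      (m 0 = -1 ∧ m 1 = -1) := by omega
  rcases key with ⟨h0, h1⟩ | ⟨h0, h1⟩ | ⟨h0, h1⟩ | ⟨h0, h1⟩
  · left
    ext t
    fin_cases t <;> simp <;> omega
  · right
    refine ⟨(0 : Fin 3), ?_⟩
    change v i00 = m
    rw [v00]
    ext t
    fin_cases t <;> simp <;> omega
  · right
    refine ⟨(1 : Fin 3), ?_⟩
    change v i01 = m
    rw [v01]
    ext t
    fin_cases t <;> simp <;> omega
  · right
    refine ⟨(2 : Fin 3), ?_⟩
    change v i02 = m
    rw [v02]
    ext t
    fin_cases t <;> simp <;> omega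

lemma lattice1 (m : Fin 3 → ℤ) (hm : (fun t => (m t : ℝ)) ∈ polytope v 1) :
    m = 0 ∨ ∃ j, v ⟨1, j⟩ = m := by
  have b1 := lin_le_poly1 ![1, -1, 0] 0 (by simp <;> norm_num) (by simp <;> norm_num)
    (by simp <;> norm_num) hm
  have b2 := lin_le_poly1 ![-1, 1, 0] 0 (by simp <;> norm_num) (by simp <;> norm_num)
    (by simp <;> norm_num) hm
  have b3 := lin_le_poly1 ![-1, 0, 0] 0 (by simp <;> norm_num) (by simp <;> norm_num)
    (by simp <;> norm_num) hm
  have b4 := lin_le_poly1 ![-1, 0, -1] 0 (by simp <;> norm_num) (by simp <;> norm_num)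
    (by simp <;> norm_num) hm
  have b5 := lin_le_poly1 ![2, 0, 1] 1 (by simp <;> norm_num) (by simp <;> norm_num)
    (by simp <;> norm_num) hm
  simp only [lin_apply] at b1 b2 b3 b4 b5
  have c1 : ((m 0 - m 1 : ℤ) : ℝ) ≤ ((0 : ℤ) : ℝ) := by
    push_cast
    simp at b1
    have b1' : (m 0 : ℝ) ≤ (m 1 : ℝ) := by exact_mod_cast b1
    linarith
  have c2 : ((m 1 - m 0 : ℤ) : ℝ) ≤ ((0 : ℤ) : ℝ) := by
    push_cast
    simp at b2
    have b2' : (m 1 : ℝ) ≤ (m 0 : ℝ) := by exact_mod_cast b2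
    linarith
  have c3 : ((-(m 0) : ℤ) : ℝ) ≤ ((0 : ℤ) : ℝ) := by
    push_cast
    simp at b3
    have b3' : (0 : ℝ) ≤ (m 0 : ℝ) := by exact_mod_cast b3
    linarith
  have c4 : ((-(m 0) - m 2 : ℤ) : ℝ) ≤ ((0 : ℤ) : ℝ) := by
    push_cast
    simp at b4
    linarith
  have c5 : ((2 * m 0 + m 2 : ℤ) : ℝ) ≤ ((1 : ℤ) : ℝ) := by
    push_cast
    simp at b5
    linarith
  rw [Int.cast_le] at c1 c2 c3 c4 c5
  have key : (m 0 = 0 ∧ m 1 = 0 ∧ m 2 = 0) ∨ (m 0 = 0 ∧ m 1 = 0 ∧ m 2 = 1) ∨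
      (m 0 = 1 ∧ m 1 = 1 ∧ m 2 = -1) := by omega
  rcases key with ⟨h0, h1, h2⟩ | ⟨h0, h1, h2⟩ | ⟨h0, h1, h2⟩
  · left
    ext t
    fin_cases t <;> simp <;> omega
  · right
    refine ⟨(0 : Fin 2), ?_⟩
    change v i10 = m
    rw [v10]
    ext t
    fin_cases t <;> simp <;> omega
  · right
    refine ⟨(1 : Fin 2), ?_⟩
    change v i11 = m
    rw [v11]
    ext t
    fin_cases t <;> simp <;> omega

lemma lattice_iff (i : Fin 2) (m : Fin 3 → ℤ) :
    (fun t => (m t : ℝ)) ∈ polytope v i ↔ m = 0 ∨ ∃ j, v ⟨i, j⟩ = m := by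
  constructor
  · intro hm
    fin_cases i
    · exact lattice0 m hm
    · exact lattice1 m hm
  · rintro (rfl | ⟨j, rfl⟩)
    · apply subset_convexHull ℝ _
      left
      ext t
      simp
    · apply subset_convexHull ℝ _
      right
      exact ⟨j, rfl⟩

lemma v_ne_zero : ∀ ij, v ij ≠ 0 := by
  apply forall_idx
  · intro h; simpa [v00] using congrFun h 0
  · intro h; simpa [v01] using congrFun h 1
  · intro h; simpa [v02] using congrFun h 0
  · intro h; simpa [v10] using congrFun h 2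
  · intro h; simpa [v11] using congrFun h 0

lemma v_injective : Function.Injective v := by
  have key : ∀ ij, ∀ ij', v ij 0 = v ij' 0 → v ij 1 = v ij' 1 → v ij 2 = v ij' 2 → ij = ij' := by
    apply forall_idx <;> apply forall_idx <;> simp [v00, v01, v02, v10, v11]
  intro x y hxy
  exact key x y (congrFun hxy 0) (congrFun hxy 1) (congrFun hxy 2)

/-- There are Fano data (with `p = 2` and `d = 3`) satisfying the standing assumptions for which
some coefficient of `φ_ij / φ_0` on `K_0` is negative. Moreover the `v_ij` are non-zero and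
pairwise distinct and `{0} ∪ {v_i1, …, v_iq_i}` is the set of all lattice points of `Δ_i`. -/
theorem result : ∃ (q : Fin 2 → ℕ) (v : Idx q → Fin 3 → ℤ),
    (∀ i, 1 ≤ q i) ∧ Standing v ∧ Fano v ∧
    (∀ ij, v ij ≠ 0) ∧ Function.Injective v ∧
    (∀ (i : Fin 2) (m : Fin 3 → ℤ),
      (fun t => (m t : ℝ)) ∈ polytope v i ↔ m = 0 ∨ ∃ j, v ⟨i, j⟩ = m) ∧
    ∃ (ij : Idx q) (k : Idx q →₀ ℕ),
      Vsum v k = 0 ∧ MvPowerSeries.coeff k (logPsi v ij) < 0 := by
  refine ⟨q, v, ?_, ⟨zero_mem_interior, span_eq⟩, fano, v_ne_zero, v_injective, lattice_iff,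
    i00, kap 4 1, Vsum_kap 4 1, ?_⟩
  · intro i
    fin_cases i <;> simp
  · rw [value]
    norm_num

end Pool.Agent.Results.MP_3570a5_nt.NegativeCoefficient
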