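import Pool.Agent.H89.MirrorPos

open scoped Pointwise
open Pool.Agent.H89.Mirror

namespace Pool.Agent.Results.MP_3570a5_nt.NonnegReflexive

variable {d p : ℕ} {q : Fin p → ℕ}

/-- `Δ` is cut out by inequalities `⟨m, x⟩ ≤ 1` with integral `m`. -/
def Reflexive (v : Idx q → Fin d → ℤ) : Prop :=
  ∃ M : Set (Fin d → ℤ), Delta v = {x : Fin d → ℝ | ∀ m ∈ M, ∑ t, (m t : ℝ) * x t ≤ 1}

lemma separated_of_one {q : Fin 1 → ℕ} (v : Idx q → Fin d → ℤ) : Separated v := by
  intro k k' h hkk'
  rcases h 0 with h0 | h0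
  · have : k = 0 := by
      ext ⟨i, j⟩
      have hi : i = 0 := Subsingleton.elim _ _
      subst hi
      exact h0 j
    rw [this]
    unfold Vsum
    simp
  · have : k' = 0 := by
      ext ⟨i, j⟩
      have hi : i = 0 := Subsingleton.elim _ _
      subst hi
      exact h0 j
    rw [hkk', this]
    unfold Vsum
    simp

lemma zero_mem_polytope (v : Idx q → Fin d → ℤ) (i : Fin p) :
    (0 : Fin d → ℝ) ∈ polytope v i :=
  subset_convexHull ℝ _ (Set.mem_insert _ _)

lemma v_mem_polytope (v : Idx q → Fin d → ℤ) (i : Fin p) (j : Fin (q i)) :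
    (fun t => (v ⟨i, j⟩ t : ℝ)) ∈ polytope v i :=
  subset_convexHull ℝ _ (Set.mem_insert_of_mem _ ⟨j, rfl⟩)

lemma isBounded_Delta (v : Idx q → Fin d → ℤ) : Bornology.IsBounded (Delta v) := by
  classical
  unfold Delta
  have : ∀ s : Finset (Fin p), Bornology.IsBounded (∑ i ∈ s, polytope v i) := by
    intro s
    induction s using Finset.induction_on with
    | empty =>
      rw [Finset.sum_empty]
      exact Bornology.isBounded_singleton
    | insert a s ha ih =>
      rw [Finset.sum_insert ha]
      apply Bornology.IsBounded.add _ ih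
      unfold polytope
      rw [isBounded_convexHull]
      exact ((Set.finite_range _).insert 0).isBounded
  exact this Finset.univ

lemma add_mem_Delta (v : Idx q → Fin d → ℤ) {i i' : Fin p} (hne : i ≠ i') {x y : Fin d → ℝ}
    (hx : x ∈ polytope v i) (hy : y ∈ polytope v i') : x + y ∈ Delta v := by
  classical
  unfold Delta
  rw [Set.mem_fintype_sum]
  refine ⟨fun l => if l = i then x else if l = i' then y else 0, ?_, ?_⟩
  · intro l
    by_cases h1 : l = i
    · subst h1; simpa using hx
    · by_cases h2 : l = i'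
      · subst h2; simpa [h1] using hy
      · simpa [h1, h2] using zero_mem_polytope v l
  · have : ∀ l, (if l = i then x else if l = i' then y else (0 : Fin d → ℝ)) =
        (if l = i then x else 0) + (if l = i' then y else 0) := by
      intro l
      by_cases h1 : l = i
      · subst h1; simp [hne]
      · simp [h1]
    simp only [this]
    rw [Finset.sum_add_distrib]
    simp

lemma dot_Vsum (v : Idx q → Fin d → ℤ) (m : Fin d → ℤ) (k : Idx q →₀ ℕ) :
    ∑ t, m t * Vsum v k t = ∑ ij, (k ij : ℤ) * ∑ t, m t * v ij t := by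
  unfold Vsum
  simp only [Finset.sum_apply, Pi.smul_apply, Finset.mul_sum]
  rw [Finset.sum_comm]
  apply Finset.sum_congr rfl
  intro ij _
  apply Finset.sum_congr rfl
  intro t _
  simp
  ring

lemma separated_of_reflexive {v : Idx q → Fin d → ℤ} (hv : Reflexive v) : Separated v := by
  obtain ⟨M, hM⟩ := hv
  intro k k' hdisj hkk'
  -- every `m ∈ M` is `≤ 0` on `P = Vsum v k`
  have key : ∀ m ∈ M, ∑ t, m t * Vsum v k t ≤ 0 := by
    intro m hm
    -- `m` is positive on at most one group
    have hone : ∀ i i' : Fin p, i ≠ i' → ∀ (j : Fin (q i)) (j' : Fin (q i')),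
        0 < ∑ t, m t * v ⟨i, j⟩ t → ∑ t, m t * v ⟨i', j'⟩ t ≤ 0 := by
      intro i i' hne j j' hpos
      by_contra hcon
      rw [not_le] at hcon
      have hmem := add_mem_Delta v hne (v_mem_polytope v i j) (v_mem_polytope v i' j')
      rw [hM] at hmem
      have h1 := hmem m hm
      have h2 : ((∑ t, m t * v ⟨i, j⟩ t + ∑ t, m t * v ⟨i', j'⟩ t : ℤ) : ℝ) ≤ 1 := by
        push_cast
        rw [← Finset.sum_add_distrib]
        refine le_trans (le_of_eq ?_) h1
        apply Finset.sum_congr rfl
        intro t _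
        simp only [Pi.add_apply]
        ring
      have h3 : (∑ t, m t * v ⟨i, j⟩ t + ∑ t, m t * v ⟨i', j'⟩ t : ℤ) ≤ 1 := by
        exact_mod_cast h2
      omega
    -- a combination of groups on which `m ≤ 0` has `m ≤ 0`
    have hle : ∀ c : Idx q →₀ ℕ, (∀ i j, 0 < ∑ t, m t * v ⟨i, j⟩ t → c ⟨i, j⟩ = 0) →
        ∑ t, m t * Vsum v c t ≤ 0 := by
      intro c hc
      rw [dot_Vsum]
      apply Finset.sum_nonpos
      rintro ⟨i, j⟩ _
      rcases le_or_gt (∑ t, m t * v ⟨i, j⟩ t) 0 with h | h
      · exact mul_nonpos_of_nonneg_of_nonpos (by positivity) h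
      · rw [hc i j h]
        simp
    by_cases hex : ∃ i j, 0 < ∑ t, m t * v ⟨i, j⟩ t
    · obtain ⟨i0, j0, h0⟩ := hex
      have honly : ∀ i j, 0 < ∑ t, m t * v ⟨i, j⟩ t → i = i0 := by
        intro i j h
        by_contra hne
        have := hone i i0 hne j j0 h
        omega
      rcases hdisj i0 with h | h
      · apply hle
        intro i j hij
        have := honly i j hij
        subst this
        exact h j
      · rw [hkk']
        apply hle
        intro i j hij
        have := honly i j hij
        subst this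
        exact h j
    · apply hle
      intro i j hij
      exact absurd ⟨i, j, hij⟩ hex
  -- the ray through `P` lies in the bounded set `Δ`
  obtain ⟨R, hR⟩ := (isBounded_Delta v).exists_norm_le
  funext t
  by_contra hne
  have hne' : (Vsum v k t : ℝ) ≠ 0 := by
    exact_mod_cast hne
  have hmem : ∀ s : ℝ, 0 ≤ s → (fun t => s * (Vsum v k t : ℝ)) ∈ Delta v := by
    intro s hs
    rw [hM]
    intro m hm
    have h1 : ((∑ t, m t * Vsum v k t : ℤ) : ℝ) ≤ 0 := by
      exact_mod_cast key m hm
    push_cast at h1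
    have h2 : ∑ t, (m t : ℝ) * (s * (Vsum v k t : ℝ)) = s * ∑ t, (m t : ℝ) * (Vsum v k t : ℝ) := by
      rw [Finset.mul_sum]
      apply Finset.sum_congr rfl
      intro t _
      ring
    rw [h2]
    nlinarith [mul_nonneg hs (neg_nonneg.mpr h1)]
  have habs : 0 < |(Vsum v k t : ℝ)| := abs_pos.mpr hne'
  have hs : 0 ≤ (|R| + 1) / |(Vsum v k t : ℝ)| := by positivity
  have h3 := hR _ (hmem _ hs)
  have h4 := norm_le_pi_norm
    (fun t' => ((|R| + 1) / |(Vsum v k t : ℝ)|) * (Vsum v k t' : ℝ)) t
  have h5 : ‖((|R| + 1) / |(Vsum v k t : ℝ)|) * (Vsum v k t : ℝ)‖ = |R| + 1 := by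
    rw [norm_mul, Real.norm_eq_abs, Real.norm_eq_abs, abs_of_nonneg hs]
    field_simp
  have h6 : |R| + 1 ≤ R := by
    rw [← h5]
    exact h4.trans h3
  have := le_abs_self R
  linarith

/-- If `p = 1`, or `Δ` is reflexive, or more generally the groups are separated, then all
coefficients of all `φ_ij / φ_0` are non-negative. -/
theorem result {d p : ℕ} {q : Fin p → ℕ} (v : Idx q → Fin d → ℤ)
    (hv : p = 1 ∨ Reflexive v ∨ Separated v) (ij : Idx q) (k : Idx q →₀ ℕ) :
    0 ≤ MvPowerSeries.coeff k (logPsi v ij) := by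
  apply coeff_logPsi_nonneg
  rcases hv with h | h | h
  · subst h
    exact separated_of_one v
  · exact separated_of_reflexive h
  · exact h

end Pool.Agent.Results.MP_3570a5_nt.NonnegReflexive
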